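import Pool.Agent.Lib.MP_0e7911_co_h42.B4
import Pool.Agent.Lib.MP_0e7911_co_h88.B1
import Pool.Agent.Lib.MP_0e7911_co_h88.B2a

set_option autoImplicit false

namespace Pool.Agent.Lib.MP_0e7911_co_full

open Finset

variable {K : Type*} [Field K] {q t : K} {V0 V1 : Type*} [AddCommGroup V0] [Module K V0]
    [AddCommGroup V1] [Module K V1]

theorem Sys.main (S : Sys q t V0 V1) (hM : MM q t ≠ 0) (Q : ℕ → ℕ → Module.End K V0)
    (hQ : S.IsQS Q) (a b : ℕ) (ha : 0 < a) (hb : 0 < b) (hab : Nat.Coprime a b) :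
    ∃ S' : Sys q t V0 V1, (∀ k, 0 < k → Q (k * a) (k * b) = S'.Qk k) ∧
      ∀ d, 0 < d → S'.Nk d = ∑ i ∈ range d, (q * t) ^ i • S.Dw (blist a b d i) :=
  Sys.main_of hM (fun S => S.tau hM) (fun S => S.nab hM) (fun _ => rfl) (fun _ => rfl)
    (fun _ => rfl) (fun _ => rfl) (fun _ => rfl) (fun _ => rfl) (fun _ => rfl) (fun _ => rfl)
    (fun _ => rfl) (fun _ => rfl) (fun S => S.Dp_eq hM) (fun S => S.L_R hM)
    (fun S => S.R_succ hM) (fun S => S.L_succ hM) S Q hQ a b ha hb hab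

end Pool.Agent.Lib.MP_0e7911_co_full
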