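import Pool.Agent.Lib.MP_0e7911_co_full.Sys

/-!
# B4: the induction over the coprime pairs
-/

set_option autoImplicit false

namespace Pool.Agent.Lib.MP_0e7911_co_full

open Finset

/-! ### Lists of steps -/

/-- the list of the first `n` steps of a height function -/
def stepsOf (B : ℕ → ℕ) (n : ℕ) : List ℕ := (List.range n).map (fun l => B (l + 1) - B l)

lemma blist_eq (a b d i : ℕ) : blist a b d i = stepsOf (Bht a b i) (a * d) := rfl

lemma stepsOf_succ (B : ℕ → ℕ) (n : ℕ) :
    stepsOf B (n + 1) = stepsOf B n ++ [B (n + 1) - B n] := by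
  simp [stepsOf, List.range_succ]

lemma stepsOf_add (B : ℕ → ℕ) (n k : ℕ) :
    stepsOf B (n + k) = stepsOf B n ++ (List.range k).map (fun j => B (n + j + 1) - B (n + j)) := by
  induction k with
  | zero => simp
  | succ k ih =>
    rw [← add_assoc, stepsOf_succ, ih, List.range_succ, List.map_append, List.append_assoc]
    simp

/-- shearing: the list `1^{k_1} 0 1^{k_2} 0 ...` -/
lemma stepsOf_shear (B B' : ℕ → ℕ) (h0 : B' 0 = 0) (hmono : Monotone B') (n : ℕ)
    (h1 : ∀ l < n, ∀ H, B' l ≤ H → H ≤ B' (l + 1) → B (l + H) = H)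
    (h2 : B (n + B' n) = B' n) :
    stepsOf B (n + B' n) = (stepsOf B' n).flatMap (fun k => List.replicate k 1 ++ [0]) := by
  induction n with
  | zero => simp [stepsOf, h0]
  | succ n ih =>
    have hm : B' n ≤ B' (n + 1) := hmono (Nat.le_succ n)
    have hend : B (n + B' n) = B' n := h1 n (Nat.lt_succ_self n) _ le_rfl hm
    have ih' := ih (fun l hl => h1 l (hl.trans (Nat.lt_succ_self n))) hend
    obtain ⟨k, hk⟩ := Nat.exists_eq_add_of_le hm
    have e1 : n + 1 + B' (n + 1) = (n + B' n) + (k + 1) := by omega
    rw [e1, stepsOf_add, ih', stepsOf_succ, List.flatMap_append]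
    congr 1
    rw [List.range_succ, List.map_append]
    have e2 : (List.range k).map (fun j => B (n + B' n + j + 1) - B (n + B' n + j)) =
        List.replicate k 1 := by
      rw [List.eq_replicate_iff]
      refine ⟨by simp, ?_⟩
      intro b hb
      obtain ⟨j, hj, rfl⟩ := List.mem_map.1 hb
      have hjk : j < k := List.mem_range.1 hj
      have e3 := h1 n (Nat.lt_succ_self n) (B' n + j) (by omega) (by omega)
      have e4 := h1 n (Nat.lt_succ_self n) (B' n + j + 1) (by omega) (by omega)
      have e5 : n + B' n + j = n + (B' n + j) := by omega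
      have e6 : n + B' n + j + 1 = n + (B' n + j + 1) := by omega
      rw [e6, e5, e3, e4]; omega
    rw [e2]
    have e7 : B' (n + 1) - B' n = k := by omega
    have e8 : B (n + B' n + k) = B' n + k := by
      have := h1 n (Nat.lt_succ_self n) (B' n + k) (by omega) (by omega)
      rw [← this]; congr 1; omega
    have e9 : B (n + B' n + k + 1) = B' n + k := by
      have : n + B' n + k + 1 = n + 1 + B' (n + 1) := by omega
      rw [this, h2, hk]
    simp [e7, e8, e9]

lemma stepsOf_add_id (B : ℕ → ℕ) (hmono : Monotone B) (n : ℕ) :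
    stepsOf (fun l => B l + l) n = (stepsOf B n).map (· + 1) := by
  simp only [stepsOf, List.map_map]
  apply List.map_congr_left
  intro l _
  have := hmono (Nat.le_succ l)
  simp only [Function.comp, Nat.succ_eq_add_one] at *
  omega

/-! ### The heights -/

lemma Bht_zero (a b i : ℕ) : Bht a b i 0 = 0 := by simp [Bht]

lemma Bht_mono {a b : ℕ} (ha : 0 < a) (hb : 0 < b) (i : ℕ) : Monotone (Bht a b i) := by
  apply monotone_nat_of_le_succ
  intro l
  unfold Bht
  by_cases h0 : l = 0
  · simp [h0]
  · rw [if_neg h0, if_neg (Nat.succ_ne_zero l)]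
    have hmul : b * l ≤ b * (l + 1) := Nat.mul_le_mul_left _ (Nat.le_succ l)
    by_cases h1 : l + 1 ≤ i * a
    · rw [if_pos h1, if_pos (by omega)]
      exact Nat.succ_le_succ (Nat.div_le_div_right hmul)
    · rw [if_neg h1]
      by_cases h2 : l ≤ i * a
      · rw [if_pos h2]
        have hl : l = i * a := by omega
        have e1 : b * l / a = b * i := by
          rw [hl, ← mul_assoc, Nat.mul_div_cancel _ ha]
        rw [e1, Nat.le_div_iff_mul_le ha]
        have : (b * i + 1) * a = b * l + a := by rw [hl]; ring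
        rw [this]
        have : b * (l + 1) = b * l + b := by ring
        omega
      · rw [if_neg h2]
        exact Nat.div_le_div_right (by omega)

lemma Bht_end {a b : ℕ} (ha : 0 < a) {i d : ℕ} (hi : i < d) : Bht a b i (a * d) = b * d := by
  have hd : 0 < d := by omega
  unfold Bht
  rw [if_neg (Nat.mul_pos ha hd).ne', if_neg]
  · have : b * (a * d) + a - 1 = (b * d) * a + (a - 1) := by
      have : b * (a * d) = b * d * a := by ring
      omega
    rw [this, Nat.add_div_of_dvd_right (Dvd.intro_left _ rfl), Nat.mul_div_cancel _ ha,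
      Nat.div_eq_of_lt (by omega), add_zero]
  · rw [not_le, mul_comm a d]
    exact Nat.mul_lt_mul_of_pos_right hi ha

lemma Bht_tau {a b : ℕ} (ha : 0 < a) (i l : ℕ) : Bht a (b + a) i l = Bht a b i l + l := by
  unfold Bht
  by_cases h0 : l = 0
  · simp [h0]
  · rw [if_neg h0, if_neg h0]
    have e : (b + a) * l = b * l + l * a := by ring
    by_cases h1 : l ≤ i * a
    · rw [if_pos h1, if_pos h1, e, Nat.add_mul_div_right _ _ ha]; omega
    · rw [if_neg h1, if_neg h1, e]
      have : b * l + l * a + a - 1 = (b * l + a - 1) + l * a := by omega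
      rw [this, Nat.add_mul_div_right _ _ ha]

lemma Bht_nab {a b : ℕ} (ha : 0 < a) (hb : 0 < b) (i l H : ℕ) (h1 : Bht a b i l ≤ H)
    (h2 : H ≤ Bht a b i (l + 1)) : Bht (a + b) b i (l + H) = H := by
  have key1 : i * (a + b) = i * a + b * i := by ring
  by_cases hx0 : l + H = 0
  · rw [hx0, Bht_zero]; omega
  · -- the floor regime
    by_cases hc : l + 1 ≤ i * a
    · have hl1 : Bht a b i (l + 1) = b * (l + 1) / a + 1 := by
        unfold Bht; rw [if_neg (Nat.succ_ne_zero l), if_pos hc]
      have hlow : b * l < a * H := by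
        by_cases hl0 : l = 0
        · subst hl0
          have : 0 < H := by omega
          simpa using Nat.mul_pos ha this
        · have hl : Bht a b i l = b * l / a + 1 := by
            unfold Bht; rw [if_neg hl0, if_pos (by omega)]
          rw [hl] at h1
          have : b * l / a < H := by omega
          rw [Nat.div_lt_iff_lt_mul ha] at this
          linarith [mul_comm a H]
      rw [hl1] at h2
      have hup : a * (H - 1) ≤ b * (l + 1) := by
        have : H - 1 ≤ b * (l + 1) / a := Nat.sub_le_iff_le_add.2 h2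
        rw [Nat.le_div_iff_mul_le ha] at this
        linarith [mul_comm a (H - 1)]
      have hH : 0 < H := by
        rcases Nat.eq_zero_or_pos H with h | h
        · subst h; simp at hlow
        · exact h
      have hbi : b * (l + 1) / a ≤ b * i := by
        calc b * (l + 1) / a ≤ b * (i * a) / a :=
              Nat.div_le_div_right (Nat.mul_le_mul_left _ hc)
          _ = b * i := by rw [← mul_assoc, Nat.mul_div_cancel _ ha]
      have hx : l + H ≤ i * (a + b) := by rw [key1]; omega
      unfold Bht
      rw [if_neg hx0, if_pos hx]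
      obtain ⟨H', rfl⟩ : ∃ H', H = H' + 1 := ⟨H - 1, by omega⟩
      simp only [Nat.add_sub_cancel] at hup
      have : b * (l + (H' + 1)) / (a + b) = H' := by
        rw [Nat.div_eq_iff (by omega)]
        constructor
        · nlinarith
        · have : b * (l + (H' + 1)) < (H' + 1) * (a + b) := by nlinarith
          have h5 : (H' + 1) * (a + b) = H' * (a + b) + (a + b) := by ring
          omega
      rw [this]
    · -- the ceiling regime
      have hc' : i * a < l + 1 := not_le.1 hc
      have hl1 : Bht a b i (l + 1) = (b * (l + 1) + a - 1) / a := by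
        unfold Bht; rw [if_neg (Nat.succ_ne_zero l), if_neg hc]
      rw [hl1] at h2
      have hup : a * H < b * (l + 1) + a := by
        rw [Nat.le_div_iff_mul_le ha] at h2
        have : 0 < b * (l + 1) := Nat.mul_pos hb (Nat.succ_pos l)
        have h3 : H * a = a * H := mul_comm _ _
        omega
      have hlow : b * l ≤ a * H ∧ i * (a + b) < l + H := by
        by_cases hl0 : l = 0
        · subst hl0
          have hi : i * a = 0 := by omega
          have hi0 : i = 0 := by
            rcases Nat.mul_eq_zero.1 hi with h | h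
            · exact h
            · omega
          subst hi0
          constructor
          · simp
          · simp; omega
        · by_cases hl : l ≤ i * a
          · have hla : l = i * a := by omega
            have hB : Bht a b i l = b * i + 1 := by
              unfold Bht
              rw [if_neg hl0, if_pos hl, hla, ← mul_assoc, Nat.mul_div_cancel _ ha]
            rw [hB] at h1
            constructor
            · rw [hla]
              calc b * (i * a) = a * (b * i) := by ring
                _ ≤ a * H := Nat.mul_le_mul_left _ (by omega)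
            · rw [key1]; omega
          · have hB : Bht a b i l = (b * l + a - 1) / a := by
              unfold Bht
              rw [if_neg hl0, if_neg hl]
            rw [hB] at h1
            have h3 : b * l ≤ a * H := by
              have h4 : (b * l + a - 1) / a < H + 1 := by omega
              rw [Nat.div_lt_iff_lt_mul ha] at h4
              have h5 : (H + 1) * a = a * H + a := by ring
              omega
            refine ⟨h3, ?_⟩
            rw [key1]
            have h6 : i * a < l := not_le.1 hl
            have h7 : a * (b * i) < a * H := by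
              calc a * (b * i) = b * (i * a) := by ring
                _ < b * l := Nat.mul_lt_mul_of_pos_left h6 hb
                _ ≤ a * H := h3
            have h8 : b * i < H := Nat.lt_of_mul_lt_mul_left h7
            omega
      unfold Bht
      rw [if_neg hx0, if_neg (not_le.2 hlow.2), Nat.div_eq_iff (by omega)]
      constructor
      · have := hlow.1
        have h5 : b * (l + H) = b * l + b * H := by ring
        have h6 : H * (a + b) = a * H + b * H := by ring
        have h7 : b * (l + 1) = b * l + b := by ring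
        by_cases hH : H = 0
        · subst hH; simp
        · omega
      · have := hlow.1
        have h5 : b * (l + H) = b * l + b * H := by ring
        have h6 : H * (a + b) = a * H + b * H := by ring
        have h7 : b * (l + 1) = b * l + b := by ring
        omega

/-! ### Words -/

section words

variable {K : Type*} [Field K] {q t : K} {V0 V1 : Type*} [AddCommGroup V0] [Module K V0]
    [AddCommGroup V1] [Module K V1]

namespace Sys

lemma word_cons (S : Sys q t V0 V1) (x : ℕ) {l : List ℕ} (hl : l ≠ []) :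
    S.word (x :: l) = (S.y : Module.End K V1) ^ x * S.Z * S.word l := by
  cases l with
  | nil => exact absurd rfl hl
  | cons b bs => rfl

lemma P_def42 (S : Sys q t V0 V1) : S.P = (S.y : Module.End K V1) * S.Z := rfl

lemma word_replicate (S : Sys q t V0 V1) (k : ℕ) {l : List ℕ} (hl : l ≠ []) :
    S.word (List.replicate k 1 ++ l) = S.P ^ k * S.word l := by
  induction k with
  | zero => simp
  | succ k ih =>
    rw [List.replicate_succ, List.cons_append, word_cons S 1 (by simp [hl]), ih, pow_one,
      pow_succ', P_def42]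
    simp only [mul_assoc]

lemma word_tau (S T : Sys q t V0 V1) (hy : T.y = S.y) (hZ : T.Z = S.y ∘ₗ S.Z) (l : List ℕ)
    (hl : l ≠ []) :
    T.word l * (S.y : Module.End K V1) = S.word (l.map (· + 1)) := by
  induction l with
  | nil => exact absurd rfl hl
  | cons x l ih =>
    by_cases h : l = []
    · subst h
      simp only [word, List.map_cons, List.map_nil, hy, pow_succ]
    · rw [word_cons T x h, List.map_cons, word_cons S (x + 1) (by simpa using h), ← ih h, hy, hZ,
        pow_succ]
      simp only [mul_assoc]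
      rfl

lemma word_nab (S T : Sys q t V0 V1) (hy : T.y = S.y ∘ₗ S.Z) (hZ : T.Z = S.Z) (l : List ℕ)
    (hl : l ≠ []) :
    T.word l = S.word (l.flatMap (fun k => List.replicate k 1 ++ [0])) := by
  induction l with
  | nil => exact absurd rfl hl
  | cons x l ih =>
    by_cases h : l = []
    · subst h
      simp only [List.flatMap_cons, List.flatMap_nil, List.append_nil]
      rw [word_replicate S x (by simp)]
      simp only [word, pow_zero, mul_one, hy]
      rfl
    · rw [word_cons T x h, List.flatMap_cons, List.append_assoc, word_replicate S x (by simp),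
        List.singleton_append, word_cons S 0 (by
          cases l with
          | nil => exact absurd rfl h
          | cons b bs => simp), ← ih h, hy, hZ, pow_zero, one_mul, mul_assoc]
      rfl

end Sys

lemma blist_ne_nil {a b d i : ℕ} (ha : 0 < a) (hd : 0 < d) : blist a b d i ≠ [] := by
  rw [blist_eq]
  intro h
  have := congrArg List.length h
  simp only [stepsOf, List.length_map, List.length_range, List.length_nil] at this
  exact (Nat.mul_pos ha hd).ne' this

lemma blist_tau {a b : ℕ} (ha : 0 < a) (hb : 0 < b) (d i : ℕ) :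
    blist a (b + a) d i = (blist a b d i).map (· + 1) := by
  rw [blist_eq, blist_eq, ← stepsOf_add_id _ (Bht_mono ha hb i)]
  congr 1
  funext l
  exact Bht_tau ha i l

lemma blist_nab {a b : ℕ} (ha : 0 < a) (hb : 0 < b) {d i : ℕ} (hi : i < d) :
    blist (a + b) b d i =
      (blist a b d i).flatMap (fun k => List.replicate k 1 ++ [0]) := by
  rw [blist_eq, blist_eq]
  have h := stepsOf_shear (Bht (a + b) b i) (Bht a b i) (Bht_zero a b i) (Bht_mono ha hb i) (a * d)
    (fun l _ H h1 h2 => Bht_nab ha hb i l H h1 h2) (by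
      apply Bht_nab ha hb i (a * d) _ le_rfl
      exact Bht_mono ha hb i (Nat.le_succ _))
  rw [← h, Bht_end ha hi]
  congr 1; ring

/-- the lists for the pair `(1,1)` -/
lemma Bht_one (i l : ℕ) : Bht 1 1 i l = if l = 0 then 0 else if l ≤ i then l + 1 else l := by
  unfold Bht; simp

lemma blist_one_zero (d : ℕ) : blist 1 1 d 0 = List.replicate d 1 := by
  rw [blist_eq, one_mul, List.eq_replicate_iff]
  refine ⟨by simp [stepsOf], ?_⟩
  intro b hb
  obtain ⟨l, _, rfl⟩ := List.mem_map.1 hb
  rw [Bht_one, Bht_one]
  by_cases h : l = 0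
  · simp [h]
  · simp [h]

lemma blist_one_succ (i k : ℕ) :
    blist 1 1 (i + 1 + 1 + k) (i + 1) =
      2 :: (List.replicate i 1 ++ 0 :: List.replicate k 1) := by
  rw [blist_eq, one_mul]
  have e : i + 1 + 1 + k = 1 + i + 1 + k := by ring
  rw [e, stepsOf_add, stepsOf_add, stepsOf_add]
  have h1 : stepsOf (Bht 1 1 (i + 1)) 1 = [2] := by
    simp [stepsOf, Bht_one]
  have h2 : (List.range i).map (fun j => Bht 1 1 (i + 1) (1 + j + 1) - Bht 1 1 (i + 1) (1 + j)) =
      List.replicate i 1 := by
    rw [List.eq_replicate_iff]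
    refine ⟨by simp, ?_⟩
    intro b hb
    obtain ⟨j, hj, rfl⟩ := List.mem_map.1 hb
    have hj' : j < i := List.mem_range.1 hj
    rw [Bht_one, Bht_one, if_neg (by omega), if_pos (by omega), if_neg (by omega),
      if_pos (by omega)]
    omega
  have h3 : (List.range 1).map (fun j => Bht 1 1 (i + 1) (1 + i + j + 1) -
      Bht 1 1 (i + 1) (1 + i + j)) = [0] := by
    simp only [List.range_one, List.map_cons, List.map_nil, add_zero]
    rw [Bht_one, Bht_one, if_neg (by omega), if_neg (by omega), if_neg (by omega),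
      if_pos (by omega)]
    simp
  have h4 : (List.range k).map (fun j => Bht 1 1 (i + 1) (1 + i + 1 + j + 1) -
      Bht 1 1 (i + 1) (1 + i + 1 + j)) = List.replicate k 1 := by
    rw [List.eq_replicate_iff]
    refine ⟨by simp, ?_⟩
    intro b hb
    obtain ⟨j, hj, rfl⟩ := List.mem_map.1 hb
    rw [Bht_one, Bht_one, if_neg (by omega), if_neg (by omega), if_neg (by omega),
      if_neg (by omega)]
    omega
  rw [h1, h2, h3, h4]
  simp

namespace Sys

/-- the words of the pair `(1,1)` -/
lemma Dw_one (S : Sys q t V0 V1) (d i : ℕ) (hi : i + 1 < d) :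
    S.Dw (blist 1 1 d i) =
      S.phi ((S.y : Module.End K V1) * S.P ^ i * S.Z * S.P ^ (d - 2 - i) * S.y) := by
  unfold Dw
  congr 1
  rcases Nat.eq_zero_or_pos i with rfl | hi0
  · rw [blist_one_zero]
    obtain ⟨k, rfl⟩ : ∃ k, d = k + 1 + 1 := ⟨d - 2, by omega⟩
    have e : List.replicate (k + 1 + 1) 1 = List.replicate (k + 1) 1 ++ [1] := by
      rw [← List.replicate_succ']
    rw [e, word_replicate S _ (by simp)]
    simp only [word, pow_one, pow_zero, mul_one]
    rw [pow_succ', P_def42]
    simp only [mul_assoc]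
    rfl
  · obtain ⟨j, rfl⟩ : ∃ j, i = j + 1 := ⟨i - 1, by omega⟩
    obtain ⟨k, rfl⟩ : ∃ k, d = j + 1 + 1 + (k + 1) := ⟨d - j - 3, by omega⟩
    rw [blist_one_succ, word_cons S 2 (by simp), word_replicate S j (by simp),
      word_cons S 0 (by simp)]
    have e : List.replicate (k + 1) 1 = List.replicate k 1 ++ [1] := by
      rw [← List.replicate_succ']
    have e2 : j + 1 + 1 + (k + 1) - 2 - (j + 1) = k := by omega
    rw [e, word_replicate S k (by simp), e2]
    simp only [word, pow_one, pow_zero, one_mul]
    rw [pow_succ' S.P j, P_def42, pow_two]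
    simp only [mul_assoc]

lemma Dw_one_last (S : Sys q t V0 V1) (d : ℕ) :
    S.Dw (blist 1 1 (d + 1) d) = S.phi ((S.y : Module.End K V1) * S.P ^ d) := by
  unfold Dw
  congr 1
  cases d with
  | zero =>
    rw [blist_one_zero]
    simp [word]
  | succ j =>
    have := blist_one_succ j 0
    rw [add_zero] at this
    rw [this, word_cons S 2 (by simp), word_replicate S j (by simp)]
    simp only [List.replicate_zero, word, pow_zero, mul_one]
    rw [pow_succ' S.P j, P_def42, pow_two]
    simp only [mul_assoc]

lemma Nk_one (S : Sys q t V0 V1) (d : ℕ) (hd : 0 < d) :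
    S.Nk d = ∑ i ∈ range d, (q * t) ^ i • S.Dw (blist 1 1 d i) := by
  obtain ⟨k, rfl⟩ : ∃ k, d = k + 1 := ⟨d - 1, by omega⟩
  rw [sum_range_succ, Dw_one_last]
  unfold Nk
  simp only [Nat.add_sub_cancel]
  congr 1
  apply sum_congr rfl
  intro i hi
  rw [Dw_one S (k + 1) i (by have := mem_range.1 hi; omega)]

/-- `Q 1 1 = D'` -/
lemma IsQS.q11 {S : Sys q t V0 V1} {Q : ℕ → ℕ → Module.End K V0} (hQ : S.IsQS Q)
    (hDp : S.Dp = (MM q t)⁻¹ • (S.E * S.D - S.D * S.E)) : Q 1 1 = S.Dp := by
  obtain ⟨r, s, u, v, h1, h2, h3, h4⟩ := hQ.qmn 1 1 one_pos one_pos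
  rw [Nat.gcd_self] at h3
  have hr : r = 1 := by
    rcases Nat.eq_zero_or_pos r with h | h
    · subst h; simp at h3
    · omega
  have hu : u = 0 := by omega
  subst hr hu
  have hv : v = 1 := by simpa using h3
  have hs : s = 0 := by omega
  subst hv hs
  rw [h4, hQ.q10, hQ.q01, hDp]

lemma IsQS.tau {S T : Sys q t V0 V1} {Q : ℕ → ℕ → Module.End K V0} (hQ : S.IsQS Q)
    (hDp : S.Dp = (MM q t)⁻¹ • (S.E * S.D - S.D * S.E))
    (hd : T.d = S.d) (hio : T.io = S.y ∘ₗ S.io) (hE : T.E = S.E) :
    T.IsQS (fun m n => Q m (m + n)) where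
  q10 := by
    show Q 1 1 = T.D
    rw [hQ.q11 hDp, D, Dp, hd, hio]
  q01 := by
    show Q 0 (0 + 1) = T.E
    rw [hE, ← hQ.q01]
  qmn := by
    intro m n hm hn
    obtain ⟨r, s, u, v, h1, h2, h3, h4⟩ := hQ.qmn m (m + n) hm (by omega)
    have hg : Nat.gcd m (m + n) = Nat.gcd m n := by simp
    rw [hg] at h3
    have hgn : Nat.gcd m n ≤ n := Nat.gcd_le_right m hn
    have hg0 : 0 < Nat.gcd m n := Nat.gcd_pos_of_pos_left n hm
    set g := Nat.gcd m n
    have e1 : r * (m + n) = s * m + g := by
      have : (r : ℤ) * v = s * u + g := by exact_mod_cast h3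
      have h1' : (r : ℤ) + u = m := by exact_mod_cast h1
      have h2' : (s : ℤ) + v = m + n := by exact_mod_cast h2
      have hv : (v : ℤ) = m + n - s := by linarith
      have hu : (u : ℤ) = m - r := by linarith
      rw [hv, hu] at this
      have : (r : ℤ) * (m + n) = s * m + g := by linarith [mul_comm (r : ℤ) s]
      exact_mod_cast this
    have e2 : m * v = (m + n) * u + g := by
      have : (r : ℤ) * v = s * u + g := by exact_mod_cast h3
      have h1' : (r : ℤ) + u = m := by exact_mod_cast h1
      have h2' : (s : ℤ) + v = m + n := by exact_mod_cast h2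
      have hs : (s : ℤ) = m + n - v := by linarith
      have hr : (r : ℤ) = m - u := by linarith
      rw [hs, hr] at this
      have : (m : ℤ) * v = (m + n) * u + g := by linarith [mul_comm (u : ℤ) v]
      exact_mod_cast this
    have hrs : r ≤ s := by
      by_contra hlt
      push Not at hlt
      obtain ⟨c, rfl⟩ := Nat.exists_eq_add_of_lt hlt
      have h5 : (s + c + 1) * (m + n) = s * m + s * n + c * (m + n) + (m + n) := by ring
      have h6 : 0 ≤ s * n := Nat.zero_le _
      have h7 : 0 ≤ c * (m + n) := Nat.zero_le _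
      omega
    have huv : u ≤ v := by
      by_contra hlt
      push Not at hlt
      have : m * v ≤ m * u := Nat.mul_le_mul_left _ hlt.le
      have h5 : (m + n) * u = m * u + n * u := by ring
      have h6 : 0 ≤ n * u := Nat.zero_le _
      omega
    obtain ⟨s', rfl⟩ := Nat.exists_eq_add_of_le hrs
    obtain ⟨v', rfl⟩ := Nat.exists_eq_add_of_le huv
    refine ⟨r, s', u, v', h1, by omega, ?_, h4⟩
    have : r * (u + v') = (r + s') * u + g := h3
    have h5 : r * (u + v') = r * u + r * v' := by ring
    have h6 : (r + s') * u = r * u + s' * u := by ring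
    omega

lemma IsQS.nab {S T : Sys q t V0 V1} {Q : ℕ → ℕ → Module.End K V0} (hQ : S.IsQS Q)
    (hDp : S.Dp = (MM q t)⁻¹ • (S.E * S.D - S.D * S.E))
    (hd : T.d = S.d) (hio : T.io = S.io) (hE : T.E = S.Dp) :
    T.IsQS (fun m n => Q (m + n) n) where
  q10 := by
    show Q (1 + 0) 0 = T.D
    rw [add_zero, hQ.q10, D, D, hd, hio]
  q01 := by
    show Q (0 + 1) 1 = T.E
    rw [zero_add, hE, hQ.q11 hDp]
  qmn := by
    intro m n hm hn
    obtain ⟨r, s, u, v, h1, h2, h3, h4⟩ := hQ.qmn (m + n) n (by omega) hn
    have hg : Nat.gcd (m + n) n = Nat.gcd m n := by simp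
    rw [hg] at h3
    have hgn : Nat.gcd m n ≤ n := Nat.gcd_le_right m hn
    have hg0 : 0 < Nat.gcd m n := Nat.gcd_pos_of_pos_left n hm
    set g := Nat.gcd m n
    have e1 : r * n = s * (m + n) + g := by
      have : (r : ℤ) * v = s * u + g := by exact_mod_cast h3
      have h1' : (r : ℤ) + u = m + n := by exact_mod_cast h1
      have h2' : (s : ℤ) + v = n := by exact_mod_cast h2
      have hv : (v : ℤ) = n - s := by linarith
      have hu : (u : ℤ) = m + n - r := by linarith
      rw [hv, hu] at this
      have : (r : ℤ) * n = s * (m + n) + g := by linarith [mul_comm (r : ℤ) s]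
      exact_mod_cast this
    have e2 : (m + n) * v = n * u + g := by
      have : (r : ℤ) * v = s * u + g := by exact_mod_cast h3
      have h1' : (r : ℤ) + u = m + n := by exact_mod_cast h1
      have h2' : (s : ℤ) + v = n := by exact_mod_cast h2
      have hs : (s : ℤ) = n - v := by linarith
      have hr : (r : ℤ) = m + n - u := by linarith
      rw [hs, hr] at this
      have : ((m : ℤ) + n) * v = n * u + g := by linarith [mul_comm (u : ℤ) v]
      exact_mod_cast this
    have hsr : s ≤ r := by
      by_contra hlt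
      push Not at hlt
      have h5 : r * n ≤ s * n := Nat.mul_le_mul_right _ hlt.le
      have h6 : s * (m + n) = s * m + s * n := by ring
      have h7 : 0 ≤ s * m := Nat.zero_le _
      omega
    have hvu : v ≤ u := by
      by_contra hlt
      push Not at hlt
      obtain ⟨c, rfl⟩ := Nat.exists_eq_add_of_lt hlt
      have h5 : (m + n) * (u + c + 1) = m * u + n * u + (m + n) * c + (m + n) := by ring
      have h6 : 0 ≤ m * u := Nat.zero_le _
      have h7 : 0 ≤ (m + n) * c := Nat.zero_le _
      omega
    obtain ⟨r', rfl⟩ := Nat.exists_eq_add_of_le hsr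
    obtain ⟨u', rfl⟩ := Nat.exists_eq_add_of_le hvu
    refine ⟨r', s, u', v, by omega, h2, ?_, ?_⟩
    · have h5 : (s + r') * v = s * v + r' * v := by ring
      have h6 : s * (v + u') = s * v + s * u' := by ring
      omega
    · show Q (m + n) n = _
      rw [h4, add_comm v u', add_comm s r']

section base

variable {S : Sys q t V0 V1} {Q : ℕ → ℕ → Module.End K V0}

lemma IsQS.q_R (hM : MM q t ≠ 0) (hQ : S.IsQS Q)
    (hDp : S.Dp = (MM q t)⁻¹ • (S.E * S.D - S.D * S.E))
    (hR : ∀ j, S.Dp * S.R j - S.R j * S.Dp = MM q t • S.R (j + 1)) (j : ℕ) :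
    Q (j + 1) j = S.R j := by
  induction j with
  | zero =>
    rw [zero_add, hQ.q10]
    simp only [R, phi, D, pow_zero]
    rfl
  | succ j ih =>
    obtain ⟨r, s, u, v, h1, h2, h3, h4⟩ := hQ.qmn (j + 1 + 1) (j + 1) (by omega) (by omega)
    have hg : Nat.gcd (j + 1 + 1) (j + 1) = 1 := by simp
    rw [hg] at h3
    have e1 : r * (j + 1) = s * (j + 1 + 1) + 1 := by
      have : (r : ℤ) * v = s * u + 1 := by exact_mod_cast h3
      have h1' : (r : ℤ) + u = j + 1 + 1 := by exact_mod_cast h1
      have h2' : (s : ℤ) + v = j + 1 := by exact_mod_cast h2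
      have hv : (v : ℤ) = j + 1 - s := by linarith
      have hu : (u : ℤ) = j + 1 + 1 - r := by linarith
      rw [hv, hu] at this
      have : (r : ℤ) * (j + 1) = s * (j + 1 + 1) + 1 := by linarith [mul_comm (r : ℤ) s]
      exact_mod_cast this
    have hsr : s < r := by
      by_contra hlt
      push Not at hlt
      have h5 : r * (j + 1) ≤ s * (j + 1) := Nat.mul_le_mul_right _ hlt
      have h6 : s * (j + 1 + 1) = s * (j + 1) + s := by ring
      omega
    obtain ⟨c, rfl⟩ := Nat.exists_eq_add_of_lt hsr
    have e2 : (c + 1) * (j + 1) = s + 1 := by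
      have h5 : (s + c + 1) * (j + 1) = s * (j + 1) + (c + 1) * (j + 1) := by ring
      have h6 : s * (j + 1 + 1) = s * (j + 1) + s := by ring
      omega
    have hc : c = 0 := by
      rcases Nat.eq_zero_or_pos c with h | h
      · exact h
      · exfalso
        have h5 : (c + 1) * (j + 1) = c * j + c + (j + 1) := by ring
        have h6 : 0 ≤ c * j := Nat.zero_le _
        omega
    subst hc
    have hs : s = j := by omega
    subst hs
    have hu : u = 1 := by omega
    have hv : v = 1 := by omega
    subst hu hv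
    have e3 : s + 0 + 1 = s + 1 := rfl
    rw [h4, e3, ih, hQ.q11 hDp, hR, smul_smul, inv_mul_cancel₀ hM, one_smul]

lemma IsQS.q_L (hM : MM q t ≠ 0) (hQ : S.IsQS Q)
    (hDp : S.Dp = (MM q t)⁻¹ • (S.E * S.D - S.D * S.E))
    (hL : ∀ l, S.L l * S.Dp - S.Dp * S.L l = MM q t • S.L (l + 1)) (l : ℕ) :
    Q l (l + 1) = S.L l := by
  induction l with
  | zero =>
    rw [zero_add, hQ.q01]
    rfl
  | succ l ih =>
    obtain ⟨r, s, u, v, h1, h2, h3, h4⟩ := hQ.qmn (l + 1) (l + 1 + 1) (by omega) (by omega)
    have hg : Nat.gcd (l + 1) (l + 1 + 1) = 1 := by simp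
    rw [hg] at h3
    have e1 : r * (l + 1 + 1) = s * (l + 1) + 1 := by
      have : (r : ℤ) * v = s * u + 1 := by exact_mod_cast h3
      have h1' : (r : ℤ) + u = l + 1 := by exact_mod_cast h1
      have h2' : (s : ℤ) + v = l + 1 + 1 := by exact_mod_cast h2
      have hv : (v : ℤ) = l + 1 + 1 - s := by linarith
      have hu : (u : ℤ) = l + 1 - r := by linarith
      rw [hv, hu] at this
      have : (r : ℤ) * (l + 1 + 1) = s * (l + 1) + 1 := by linarith [mul_comm (r : ℤ) s]
      exact_mod_cast this
    have hrs : r = s := by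
      rcases lt_trichotomy r s with h | h | h
      · exfalso
        obtain ⟨c, rfl⟩ := Nat.exists_eq_add_of_lt h
        have h5 : (r + c + 1) * (l + 1) = r * (l + 1) + c * (l + 1) + (l + 1) := by ring
        have h6 : r * (l + 1 + 1) = r * (l + 1) + r := by ring
        have h7 : 0 ≤ c * (l + 1) := Nat.zero_le _
        omega
      · exact h
      · exfalso
        obtain ⟨c, rfl⟩ := Nat.exists_eq_add_of_lt h
        have h5 : (s + c + 1) * (l + 1 + 1) = s * (l + 1) + s + (c + 1) * (l + 1 + 1) := by ring
        have h6 : l + 1 + 1 ≤ (c + 1) * (l + 1 + 1) := Nat.le_mul_of_pos_left _ (by omega)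
        omega
    subst hrs
    have hr : r = 1 := by
      have h6 : r * (l + 1 + 1) = r * (l + 1) + r := by ring
      omega
    subst hr
    have hu : u = l := by omega
    have hv : v = l + 1 := by omega
    subst hu hv
    rw [h4, ih, hQ.q11 hDp, hL, smul_smul, inv_mul_cancel₀ hM, one_smul]

lemma IsQS.q_diag (hM : MM q t ≠ 0) (hQ : S.IsQS Q)
    (hDp : S.Dp = (MM q t)⁻¹ • (S.E * S.D - S.D * S.E))
    (hR : ∀ j, S.Dp * S.R j - S.R j * S.Dp = MM q t • S.R (j + 1))
    (hL : ∀ l, S.L l * S.Dp - S.Dp * S.L l = MM q t • S.L (l + 1))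
    (hLR : ∀ l j, S.L l * S.R j - S.R j * S.L l = MM q t • S.Qk (l + j + 1)) (k : ℕ)
    (hk : 0 < k) : Q k k = S.Qk k := by
  obtain ⟨r, s, u, v, h1, h2, h3, h4⟩ := hQ.qmn k k hk hk
  rw [Nat.gcd_self] at h3
  have e1 : r * k = (s + 1) * k := by
    have : (r : ℤ) * v = s * u + k := by exact_mod_cast h3
    have h1' : (r : ℤ) + u = k := by exact_mod_cast h1
    have h2' : (s : ℤ) + v = k := by exact_mod_cast h2
    have hv : (v : ℤ) = k - s := by linarith
    have hu : (u : ℤ) = k - r := by linarith
    rw [hv, hu] at this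
    have : (r : ℤ) * k = (s + 1) * k := by linarith [mul_comm (r : ℤ) s]
    exact_mod_cast this
  have hr : r = s + 1 := Nat.eq_of_mul_eq_mul_right hk e1
  subst hr
  have hv : v = u + 1 := by omega
  subst hv
  rw [h4, hQ.q_R hM hDp hR, hQ.q_L hM hDp hL, hLR, smul_smul, inv_mul_cancel₀ hM, one_smul]
  congr 1; omega

end base

/-- **B4**: the induction over the coprime pairs, with the results of B1 and B2 as hypotheses. -/
theorem main_of (hM : MM q t ≠ 0) (tau nab : Sys q t V0 V1 → Sys q t V0 V1)
    (tau_d : ∀ S : Sys q t V0 V1, (tau S).d = S.d)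
    (tau_io : ∀ S : Sys q t V0 V1, (tau S).io = S.y ∘ₗ S.io)
    (tau_y : ∀ S : Sys q t V0 V1, (tau S).y = S.y)
    (tau_Z : ∀ S : Sys q t V0 V1, (tau S).Z = S.y ∘ₗ S.Z)
    (tau_E : ∀ S : Sys q t V0 V1, (tau S).E = S.E)
    (nab_d : ∀ S : Sys q t V0 V1, (nab S).d = S.d)
    (nab_io : ∀ S : Sys q t V0 V1, (nab S).io = S.io)
    (nab_y : ∀ S : Sys q t V0 V1, (nab S).y = S.y ∘ₗ S.Z)
    (nab_Z : ∀ S : Sys q t V0 V1, (nab S).Z = S.Z)
    (nab_E : ∀ S : Sys q t V0 V1, (nab S).E = S.Dp)
    (Dp_eq' : ∀ S : Sys q t V0 V1, S.Dp = (MM q t)⁻¹ • (S.E * S.D - S.D * S.E))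
    (L_R' : ∀ (S : Sys q t V0 V1) (l j : ℕ),
      S.L l * S.R j - S.R j * S.L l = MM q t • S.Qk (l + j + 1))
    (R_succ' : ∀ (S : Sys q t V0 V1) (j : ℕ),
      S.Dp * S.R j - S.R j * S.Dp = MM q t • S.R (j + 1))
    (L_succ' : ∀ (S : Sys q t V0 V1) (l : ℕ),
      S.L l * S.Dp - S.Dp * S.L l = MM q t • S.L (l + 1))
    (S : Sys q t V0 V1) (Q : ℕ → ℕ → Module.End K V0) (hQ : S.IsQS Q) (a b : ℕ) (ha : 0 < a)
    (hb : 0 < b) (hab : Nat.Coprime a b) :
    ∃ S' : Sys q t V0 V1, (∀ k, 0 < k → Q (k * a) (k * b) = S'.Qk k) ∧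
      ∀ d, 0 < d → S'.Nk d = ∑ i ∈ range d, (q * t) ^ i • S.Dw (blist a b d i) := by
  obtain ⟨N, hN⟩ : ∃ N, a + b = N := ⟨_, rfl⟩
  induction N using Nat.strong_induction_on generalizing S Q a b with
  | _ N ih =>
    rcases lt_trichotomy a b with hlt | heq | hgt
    · -- b > a
      obtain ⟨b', rfl⟩ := Nat.exists_eq_add_of_lt hlt
      have hcop : Nat.Coprime a (b' + 1) := by
        have : a + b' + 1 = a + (b' + 1) := by ring
        rw [this] at hab
        simpa using hab
      obtain ⟨S', h1, h2⟩ := ih (a + (b' + 1)) (by omega) (tau S) _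
        (hQ.tau (Dp_eq' S) (tau_d S) (tau_io S) (tau_E S)) a (b' + 1) ha (by omega) hcop rfl
      refine ⟨S', fun k hk => ?_, fun d hd => ?_⟩
      · rw [← h1 k hk]
        show Q (k * a) (k * (a + b' + 1)) = Q (k * a) (k * a + k * (b' + 1))
        congr 1; ring
      · rw [h2 d hd]
        apply sum_congr rfl
        intro i _
        congr 1
        have e : a + b' + 1 = (b' + 1) + a := by ring
        rw [e, blist_tau ha (by omega) d i]
        unfold Dw phi
        rw [← word_tau S (tau S) (tau_y S) (tau_Z S) _ (blist_ne_nil ha hd), tau_d, tau_io]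
        rfl
    · subst heq
      have ha1 : a = 1 := by simpa using hab
      subst ha1
      refine ⟨S, fun k hk => ?_, fun d hd => S.Nk_one d hd⟩
      rw [mul_one]
      exact hQ.q_diag hM (Dp_eq' S) (R_succ' S) (L_succ' S) (L_R' S) k hk
    · obtain ⟨a', rfl⟩ := Nat.exists_eq_add_of_lt hgt
      have hcop : Nat.Coprime (a' + 1) b := by
        have : b + a' + 1 = b + (a' + 1) := by ring
        rw [this] at hab
        simpa using hab
      obtain ⟨S', h1, h2⟩ := ih ((a' + 1) + b) (by omega) (nab S) _
        (hQ.nab (Dp_eq' S) (nab_d S) (nab_io S) (nab_E S)) (a' + 1) b (by omega) hb hcop rfl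
      refine ⟨S', fun k hk => ?_, fun d hd => ?_⟩
      · rw [← h1 k hk]
        show Q (k * (b + a' + 1)) (k * b) = Q (k * (a' + 1) + k * b) (k * b)
        congr 1; ring
      · rw [h2 d hd]
        apply sum_congr rfl
        intro i hi
        congr 1
        have e : b + a' + 1 = (a' + 1) + b := by ring
        rw [e, blist_nab (by omega) hb (mem_range.1 hi)]
        unfold Dw phi
        rw [← word_nab S (nab S) (nab_y S) (nab_Z S) _ (blist_ne_nil (by omega) hd), nab_d, nab_io]

end Sys

end words

end Pool.Agent.Lib.MP_0e7911_co_full
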